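import Pool.Agent.L7h95.CD.Stm3

/-!
# Project CD (helper95), part U1: Hamming codes have a basis of words of weight three
-/

set_option autoImplicit false

namespace Pool.Agent.L7h16.CD

open Finset Function Pool.Agent.L7h95.CD

/-- a binary digit in `ZMod 2` -/
def bt (n k : ℕ) : ZMod 2 := if n.testBit k then 1 else 0

lemma bt_split {n L : ℕ} (h1 : 2 ^ L < n) (h2 : n < 2 ^ (L + 1)) (k : ℕ) :
    bt n k + bt (2 ^ L) k + bt (n - 2 ^ L) k = 0 := by
  obtain ⟨y, rfl⟩ : ∃ y, n = 2 ^ L + y := ⟨n - 2 ^ L, by omega⟩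
  have hy : y < 2 ^ L := by rw [pow_succ] at h2; omega
  rw [Nat.add_sub_cancel_left]
  unfold bt
  rcases lt_trichotomy k L with h | h | h
  · rw [Nat.testBit_two_pow_add_gt h, Nat.testBit_two_pow_of_ne (by omega)]
    by_cases c : y.testBit k
    · rw [if_pos c]
      decide
    · rw [if_neg c]
      decide
  · subst h
    rw [Nat.testBit_two_pow_add_eq, Nat.testBit_lt_two_pow hy, Nat.testBit_two_pow_self]
    decide
  · rw [Nat.testBit_lt_two_pow (lt_of_lt_of_le h2 (Nat.pow_le_pow_right (by norm_num) h)),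
      Nat.testBit_two_pow_of_ne (by omega),
      Nat.testBit_lt_two_pow (hy.trans_le (Nat.pow_le_pow_right (by norm_num) h.le))]
    decide

/-- the coordinate of the greatest power of two -/
def xv {s : ℕ} (v : Fin s) : Fin s :=
  ⟨2 ^ Nat.log 2 ((v : ℕ) + 1) - 1, by
    have h1 := Nat.pow_log_le_self 2 (show (v : ℕ) + 1 ≠ 0 by omega)
    have h2 := v.2
    omega⟩

/-- the coordinate of the difference -/
def yv {s : ℕ} (v : Fin s) : Fin s :=
  ⟨(v : ℕ) - 2 ^ Nat.log 2 ((v : ℕ) + 1), lt_of_le_of_lt (Nat.sub_le _ _) v.2⟩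

/-- the word -/
def hw {s : ℕ} (v : Fin s) : Fin s → ZMod 2 := Pi.single v 1 + Pi.single (xv v) 1 + Pi.single (yv v) 1

lemma facts {s : ℕ} {v : Fin s} (hv : 2 ^ Nat.log 2 ((v : ℕ) + 1) ≠ (v : ℕ) + 1) :
    2 ^ Nat.log 2 ((v : ℕ) + 1) < (v : ℕ) + 1 ∧ (v : ℕ) + 1 < 2 ^ (Nat.log 2 ((v : ℕ) + 1) + 1) ∧
      v ≠ xv v ∧ v ≠ yv v ∧ xv v ≠ yv v ∧ xv v ≤ v ∧ yv v ≤ v := by
  have h1 := Nat.pow_log_le_self 2 (show (v : ℕ) + 1 ≠ 0 by omega)
  have h2 := Nat.lt_pow_succ_log_self (b := 2) (by norm_num) ((v : ℕ) + 1)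
  have h3 : 0 < 2 ^ Nat.log 2 ((v : ℕ) + 1) := by positivity
  have h4 : 2 ^ (Nat.log 2 ((v : ℕ) + 1) + 1) = 2 * 2 ^ Nat.log 2 ((v : ℕ) + 1) := by rw [pow_succ]; ring
  refine ⟨by omega, h2, ?_, ?_, ?_, ?_, ?_⟩
  · intro h
    have := congrArg Fin.val h
    simp only [xv] at this
    omega
  · intro h
    have := congrArg Fin.val h
    simp only [yv] at this
    omega
  · intro h
    have := congrArg Fin.val h
    simp only [xv, yv] at this
    omega
  · rw [Fin.le_def]
    simp only [xv]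
    omega
  · rw [Fin.le_def]
    simp only [yv]
    omega

lemma synd {s : ℕ} {v : Fin s} (hv : 2 ^ Nat.log 2 ((v : ℕ) + 1) ≠ (v : ℕ) + 1) (k : ℕ) :
    ∑ i, hw v i * bt ((i : ℕ) + 1) k = 0 := by
  obtain ⟨h1, h2, -, -, -, -, -⟩ := facts hv
  have e : ∀ a : Fin s, ∑ i, (Pi.single a (1 : ZMod 2) : Fin s → ZMod 2) i * bt ((i : ℕ) + 1) k = bt ((a : ℕ) + 1) k := by
    intro a
    rw [Finset.sum_eq_single a]
    · rw [Pi.single_eq_same, one_mul]
    · intro b _ hb
      rw [Pi.single_eq_of_ne hb, zero_mul]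
    · intro h
      exact absurd (mem_univ a) h
  unfold hw
  simp only [Pi.add_apply, add_mul, sum_add_distrib, e]
  have h3 := bt_split h1 h2 k
  have e1 : ((xv v : Fin s) : ℕ) + 1 = 2 ^ Nat.log 2 ((v : ℕ) + 1) := by
    have : 0 < 2 ^ Nat.log 2 ((v : ℕ) + 1) := by positivity
    simp only [xv]
    omega
  have e2 : ((yv v : Fin s) : ℕ) + 1 = (v : ℕ) + 1 - 2 ^ Nat.log 2 ((v : ℕ) + 1) := by
    simp only [yv]
    omega
  rw [e1, e2]
  exact h3

/-- enough numbers which are not powers of two -/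
lemma exists_emb (t : ℕ) : ∃ φ : Fin (2 ^ t - 1 - t) → Fin (2 ^ t - 1), Injective φ ∧
    ∀ j, 2 ^ Nat.log 2 ((φ j : ℕ) + 1) ≠ (φ j : ℕ) + 1 := by
  classical
  obtain ⟨P, hP⟩ : ∃ P : Finset (Fin (2 ^ t - 1)), P = univ.filter fun i : Fin (2 ^ t - 1) => 2 ^ Nat.log 2 ((i : ℕ) + 1) = (i : ℕ) + 1 := ⟨_, rfl⟩
  have hcard : P.card ≤ t := by
    have h : P.card ≤ (range t).card := by
      refine card_le_card_of_injOn (fun i => Nat.log 2 ((i : ℕ) + 1)) ?_ ?_
      · intro i hi
        rw [hP, mem_coe, mem_filter] at hi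
        rw [mem_coe, mem_range]
        have h1 := i.2
        have h2 : (i : ℕ) + 1 < 2 ^ t := by omega
        have h3 : 2 ^ Nat.log 2 ((i : ℕ) + 1) < 2 ^ t := by rw [hi.2]; exact h2
        exact (Nat.pow_lt_pow_iff_right (by norm_num)).1 h3
      · intro i hi j hj hij
        rw [hP, mem_coe, mem_filter] at hi hj
        have hij' : Nat.log 2 ((i : ℕ) + 1) = Nat.log 2 ((j : ℕ) + 1) := hij
        have h1 := hi.2
        have h2 := hj.2
        rw [hij'] at h1
        exact Fin.ext (by omega)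
    rwa [card_range] at h
  have hc2 : 2 ^ t - 1 - t ≤ (univ \ P).card := by
    rw [card_sdiff_of_subset (subset_univ _), card_univ, Fintype.card_fin]
    omega
  obtain ⟨S, hS, hSc⟩ := exists_subset_card_eq hc2
  refine ⟨fun j => ((S.equivFin.symm (Fin.cast hSc.symm j) : S) : Fin (2 ^ t - 1)), ?_, ?_⟩
  · intro a b hab
    have h1 := Subtype.ext hab
    have h2 := S.equivFin.symm.injective h1
    exact Fin.cast_injective _ h2
  · intro j hj
    have h1 := hS (S.equivFin.symm (Fin.cast hSc.symm j)).2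
    rw [mem_sdiff] at h1
    apply h1.2
    rw [hP, mem_filter]
    exact ⟨mem_univ _, hj⟩

theorem s_U1 : S_U1 := by
  classical
  intro t ht
  obtain ⟨φ, hφ, hφ2⟩ := exists_emb t
  refine ⟨fun j => hw (φ j), fun j => ?_, fun γ hγ => ?_⟩
  · obtain ⟨-, -, h3, h4, h5, -, -⟩ := facts (hφ2 j)
    exact ⟨φ j, xv (φ j), yv (φ j), h3, h4, h5, rfl⟩
  · obtain ⟨w, hw'⟩ : ∃ w : Fin (2 ^ t - 1) → ZMod 2, w = fun i => ∑ j, γ j * hw (φ j) i := ⟨_, rfl⟩
    rw [← hw']
    -- the word is not zero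
    have hne : ∃ i, w i ≠ 0 := by
      obtain ⟨j1, hj1⟩ := Function.ne_iff.1 hγ
      obtain ⟨T, hT⟩ : ∃ T : Finset (Fin (2 ^ t - 1 - t)), T = univ.filter fun j => γ j ≠ 0 := ⟨_, rfl⟩
      obtain ⟨j0, hj0, hmax⟩ := T.exists_max_image φ ⟨j1, by rw [hT, mem_filter]; exact ⟨mem_univ _, hj1⟩⟩
      refine ⟨φ j0, ?_⟩
      have hsum : w (φ j0) = γ j0 * hw (φ j0) (φ j0) := by
        rw [hw']
        refine Finset.sum_eq_single j0 ?_ (fun h => absurd (mem_univ _) h)
        intro j _ hj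
        by_cases hγj : γ j = 0
        · rw [hγj, zero_mul]
        · have h1 : φ j ≤ φ j0 := hmax j (by rw [hT, mem_filter]; exact ⟨mem_univ _, hγj⟩)
          have h2 : φ j < φ j0 := lt_of_le_of_ne h1 fun h => hj (hφ h)
          obtain ⟨-, -, -, -, -, h3, h4⟩ := facts (hφ2 j)
          have e : hw (φ j) (φ j0) = 0 := by
            unfold hw
            rw [Pi.add_apply, Pi.add_apply, Pi.single_eq_of_ne h2.ne', Pi.single_eq_of_ne (h3.trans_lt h2).ne',
              Pi.single_eq_of_ne (h4.trans_lt h2).ne']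
            rfl
          rw [e, mul_zero]
      obtain ⟨-, -, h3, h4, -, -, -⟩ := facts (hφ2 j0)
      have e : hw (φ j0) (φ j0) = 1 := by
        unfold hw
        rw [Pi.add_apply, Pi.add_apply, Pi.single_eq_same, Pi.single_eq_of_ne h3, Pi.single_eq_of_ne h4]
        rfl
      rw [hsum, e, mul_one]
      rw [hT, mem_filter] at hj0
      exact hj0.2
    -- the syndrome
    have hsy : ∀ k, ∑ i, w i * bt ((i : ℕ) + 1) k = 0 := by
      intro k
      rw [hw']
      simp only [sum_mul]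
      rw [sum_comm]
      refine sum_eq_zero fun j _ => ?_
      have h1 := synd (hφ2 j) k
      calc ∑ i, γ j * hw (φ j) i * bt ((i : ℕ) + 1) k = γ j * ∑ i, hw (φ j) i * bt ((i : ℕ) + 1) k := by
            rw [mul_sum]
            exact sum_congr rfl fun i _ => by ring
        _ = 0 := by rw [h1, mul_zero]
    obtain ⟨Z, hZ⟩ : ∃ Z : Finset (Fin (2 ^ t - 1)), Z = univ.filter fun i => w i ≠ 0 := ⟨_, rfl⟩
    have hd : hammingDist w 0 = Z.card := by
      rw [hZ]
      rfl
    have h01 : ∀ z : ZMod 2, z = 0 ∨ z = 1 := by decide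
    have hsy2 : ∀ k, ∑ i ∈ Z, bt ((i : ℕ) + 1) k = 0 := by
      intro k
      rw [← hsy k, hZ, sum_filter]
      refine sum_congr rfl fun i _ => ?_
      rcases h01 (w i) with h | h
      · rw [if_neg (not_not.2 h), h, zero_mul]
      · rw [if_pos (by rw [h]; decide), h, one_mul]
    rw [hd]
    by_contra hlt
    have hpos : 0 < Z.card := by
      obtain ⟨i, hi⟩ := hne
      exact card_pos.2 ⟨i, by rw [hZ, mem_filter]; exact ⟨mem_univ _, hi⟩⟩
    have hcases : Z.card = 1 ∨ Z.card = 2 := by omega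
    rcases hcases with h | h
    · obtain ⟨a, ha⟩ := card_eq_one.1 h
      have h1 : (a : ℕ) + 1 = 0 := by
        apply Nat.eq_of_testBit_eq
        intro k
        have h2 := hsy2 k
        rw [ha, sum_singleton] at h2
        unfold bt at h2
        rw [Nat.zero_testBit]
        by_contra hc
        rw [Bool.not_eq_false] at hc
        rw [if_pos hc] at h2
        exact absurd h2 (by decide)
      omega
    · obtain ⟨a, b, hab, hZ2⟩ := card_eq_two.1 h
      have h1 : (a : ℕ) + 1 = (b : ℕ) + 1 := by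
        apply Nat.eq_of_testBit_eq
        intro k
        have h2 := hsy2 k
        rw [hZ2, sum_pair hab] at h2
        unfold bt at h2
        rcases Bool.eq_false_or_eq_true (Nat.testBit ((a : ℕ) + 1) k) with h3 | h3 <;>
          rcases Bool.eq_false_or_eq_true (Nat.testBit ((b : ℕ) + 1) k) with h4 | h4 <;>
          rw [h3, h4] at h2 ⊢ <;> first | rfl | exact absurd h2 (by decide)
      exact hab (Fin.ext (by omega))

end Pool.Agent.L7h16.CD
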